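import Pool.Agent.R216.HK11

/-!
The heat kernel of a subcritical operator divided by the heat kernel of a critical operator need not
tend to zero: on `Ω = ℝ`, for the Schrödinger operators `H₊ = -d²/dx² + (1+x²)⁻²` (subcritical) and
`H₀ = -d²/dx² + V₀` (critical, `V₀` smooth), the ratio is unbounded on `[-2,2]²` as `t → ∞`.
-/

set_option autoImplicit false
open scoped ContDiff

namespace Pool.Agent.Results.MP_ca5fa5_an.RatioUnbounded

open Pool.Agent.R216.HK

theorem result : ∃ Vp V0 : ℝ → ℝ,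
    (∀ x, Vp x = 1 / (1 + x ^ 2) ^ 2) ∧ ContDiff ℝ ∞ V0 ∧
    BottomZero Vp ∧ BottomZero V0 ∧ Subcritical Vp ∧ Critical V0 ∧
    ∃ Rp R0 : L2 →L[ℂ] L2, IsTheResolvent Vp Rp ∧ IsTheResolvent V0 R0 ∧
      SelfAdjointUnit Rp ∧ SelfAdjointUnit R0 ∧ BumpUnbounded Rp R0 ∧ KernelUnbounded Rp R0 :=
  ⟨pot phip, pot phi0, pot_phip, pot_contDiff phi0_contDiff phi0_pos, bottom_phip,
    bottom_phi0, subcritical_phip, critical_phi0, Rg (ld phip), Rg (ld phi0),
    fun _ => ⟨fun h => isResolvent_unique phip_contDiff phip_pos h, fun h => h ▸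
      isResolvent_Rg phip_contDiff phip_pos⟩,
    fun _ => ⟨fun h => isResolvent_unique phi0_contDiff phi0_pos h, fun h => h ▸
      isResolvent_Rg phi0_contDiff phi0_pos⟩,
    ⟨resol_selfAdjoint _, resol_spectrum _⟩, ⟨resol_selfAdjoint _, resol_spectrum _⟩,
    bump_unbounded, kernel_unbounded⟩

end Pool.Agent.Results.MP_ca5fa5_an.RatioUnbounded
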